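import Pool.Agent.helper90.DH.SpecI

/-!
# d2:iNNM (MP_5823cb_al): numbers for large n (helper59)
-/

set_option autoImplicit false

open Filter Topology MeasureTheory
open scoped commutatorElement

namespace Pool.Agent.helper90.DH

open Pool.Agent.helper64.D2

theorem NNM_num : ∀ e : ℕ, 10 ≤ e → 1204 * e + 1198 ≤ 2 ^ (2 * e - 4) := by
  intro e he
  induction e, he using Nat.le_induction with
  | base => norm_num
  | succ k hk ih =>
    have h1 : 2 * (k + 1) - 4 = (2 * k - 4) + 2 := by omega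
    rw [h1, pow_add]
    omega

theorem NNM : NNM_stmt := by
  intro M B δ hδ
  obtain ⟨e1, he1⟩ := pow_unbounded_of_one_lt ((M : ℝ) * (5 * |B| + 1) / δ) (one_lt_two (α := ℝ))
  refine ⟨400 * (10 + M + e1), ?_⟩
  intro n hn
  set e := n / 400 with he
  have hen : 10 + M + e1 ≤ e := by
    rw [he]
    exact (Nat.le_div_iff_mul_le (by norm_num)).2 (by omega)
  have hrn : rn n = 2 ^ e := by
    rw [he]
    rfl
  have hne : e ≤ n := Nat.div_le_self n 400
  have hn2 : n ≤ 400 * e + 399 := by omega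
  refine ⟨?_, ?_, ?_⟩
  · rw [hrn]
    have h1 : M < 2 ^ M := Nat.lt_two_pow_self
    have h2 : 2 ^ M ≤ 2 ^ e := Nat.pow_le_pow_right (by norm_num) (by omega)
    omega
  · rw [hrn]
    have h2e : (0 : ℝ) < 2 ^ e := by positivity
    have h1 : (2 : ℝ) ^ e1 ≤ 2 ^ e := pow_le_pow_right₀ (by norm_num) (by omega)
    have h2 : (M : ℝ) * (5 * |B| + 1) ≤ δ * 2 ^ e := by
      rw [div_lt_iff₀ hδ] at he1
      nlinarith
    have h3 : (5 : ℝ) / 2 ^ n * B ≤ 5 / 2 ^ e * |B| := by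
      have h4 : (5 : ℝ) / 2 ^ n ≤ 5 / 2 ^ e := by
        apply div_le_div_of_nonneg_left (by norm_num) h2e
        exact pow_le_pow_right₀ (by norm_num) hne
      calc (5 : ℝ) / 2 ^ n * B ≤ 5 / 2 ^ n * |B| := mul_le_mul_of_nonneg_left (le_abs_self B) (by positivity)
        _ ≤ 5 / 2 ^ e * |B| := mul_le_mul_of_nonneg_right h4 (abs_nonneg B)
    have h5 : (M : ℝ) * (5 / 2 ^ n * B + 1 / ((2 ^ e : ℕ) : ℝ)) ≤ (M : ℝ) * (5 * |B| + 1) / 2 ^ e := by
      push_cast
      have h6 : (M : ℝ) * (5 * |B| + 1) / 2 ^ e = (M : ℝ) * (5 / 2 ^ e * |B| + 1 / 2 ^ e) := by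
        field_simp
      rw [h6]
      apply mul_le_mul_of_nonneg_left _ (Nat.cast_nonneg M)
      linarith
    refine h5.trans ?_
    rw [div_le_iff₀ h2e]
    exact h2
  · rw [hrn]
    have h1 : (2 ^ e) ^ 2 / 16 = 2 ^ (2 * e - 4) := by
      have h2 : (2 ^ e) ^ 2 = 2 ^ (2 * e - 4) * 16 := by
        have h3 : 2 * e = (2 * e - 4) + 4 := by omega
        rw [← pow_mul, mul_comm e 2]
        conv_lhs => rw [h3, pow_add]
        norm_num
      rw [h2]
      simp
    rw [h1]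
    have h4 : (2 : ℝ) * (((2 ^ e : ℕ) : ℝ)) ^ 4 * 2 ^ (3 * n) = 2 ^ (1 + e * 4 + 3 * n) := by
      push_cast
      rw [← pow_mul, pow_add, pow_add, pow_one]
    rw [h4]
    apply pow_le_pow_right₀ (by norm_num)
    have := NNM_num e (by omega)
    omega

end Pool.Agent.helper90.DH
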